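import Pool.Agent.MP_8e9d7b_co.Proof

open Pool.Agent.MP_8e9d7b_co

/-- Every permutation graph has as many mandatory vertices as its least monitoring
edge-geodetic set has vertices. -/
theorem Pool.Agent.Results.MP_8e9d7b_co.ManEqMeg.result
    {V : Type} [Fintype V] (G : SimpleGraph V) (hG : IsPermutationGraph G) :
    (Man G).ncard = meg G :=
  (main hG).2
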